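import Pool.Agent.Helper75_WRA.Box

/-!
WRA, module TRANS: transport of the inner sum to the smaller wreath product.
-/

open scoped BigOperators

noncomputable section

namespace Pool.Agent.Helper79_WRA.H75

open Pool.Agent.Helper51_AWC

/-- the order embedding of subgroups given by an injective homomorphism -/
def mapO {A B : Type} [Group A] [Group B] (f : A →* B) (hf : Function.Injective f) :
    Subgroup A ↪o Subgroup B where
  toFun D := D.map f
  inj' := Subgroup.map_injective hf
  map_rel_iff' := Subgroup.map_le_map_iff_of_injective hf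

theorem mapO_apply {A B : Type} [Group A] [Group B] (f : A →* B) (hf : Function.Injective f)
    (D : Subgroup A) : mapO f hf D = D.map f := rfl

theorem conjS_map_hom {A B : Type} [Group A] [Group B] (f : A →* B) (g : A) (D : Subgroup A) :
    conjS (f g) (D.map f) = (conjS g D).map f := by
  ext x
  constructor
  · intro hx
    rw [mem_conjS] at hx
    obtain ⟨y, hy, hyx⟩ := hx
    refine ⟨g * y * g⁻¹, ?_, ?_⟩
    · rw [SetLike.mem_coe, mem_conjS]
      have e : g⁻¹ * (g * y * g⁻¹) * g = y := by group
      rw [e]; exact hy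
    · rw [map_mul, map_mul, map_inv, hyx]; group
  · rintro ⟨y, hy, rfl⟩
    rw [SetLike.mem_coe, mem_conjS] at hy
    rw [mem_conjS]
    refine ⟨_, hy, ?_⟩
    rw [map_mul, map_mul, map_inv]

/-- TRANS -/
theorem trans : TransStmt := by
  intro ℓ _ Γ G Δ K _ _ _ _ _ _ _ _ N w c ι hι hr hc
  have hinj : Function.Injective (ι.comp (Wreath.base : (Δ → G) →* Wreath G Δ K)) := by
    rw [MonoidHom.coe_comp]
    exact hι.comp Wreath.base_injective
  have hps : psubIn ℓ (cent N c) =
      (psubIn ℓ (⊤ : Subgroup (Δ → G))).map (mapO _ hinj).toEmbedding := by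
    ext D
    rw [mem_psubIn, Finset.mem_map]
    constructor
    · rintro ⟨h1, h2⟩
      rw [hc] at h1
      refine ⟨D.comap (ι.comp Wreath.base), ?_, ?_⟩
      · rw [mem_psubIn]
        exact ⟨le_top, h2.comap_of_injective _ hinj⟩
      · show (D.comap (ι.comp Wreath.base)).map (ι.comp Wreath.base) = D
        rw [Subgroup.map_comap_eq]
        exact inf_eq_right.2 h1
    · rintro ⟨E, hE, rfl⟩
      rw [mem_psubIn] at hE
      rw [hc]
      refine ⟨?_, hE.2.map _⟩
      rintro x ⟨y, _, rfl⟩
      exact ⟨y, rfl⟩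
  have hst : ∀ v : Finset (Subgroup (Δ → G)),
      stab c ⊓ stab (v.map (mapO _ hinj).toEmbedding) = (stabB K v).map ι := by
    intro v
    have key : ∀ t : Wreath G Δ K, ι t ∈ stab (v.map (mapO _ hinj).toEmbedding) ↔
        t ∈ stabB K v := by
      intro t
      rw [mem_stab, mem_stabB]
      have h1 : ∀ R : Subgroup (Δ → G), conjS (ι t) (mapO _ hinj R) = mapO _ hinj (R.map (phi t)) := by
        intro R
        rw [mapO_apply, mapO_apply, ← Subgroup.map_map, ← Subgroup.map_map, conjS_map_hom,
          conjS_base]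
      constructor
      · intro h R hR
        have h2 := h _ (Finset.mem_map_of_mem _ hR)
        exact (mapO _ hinj).injective ((h1 R).symm.trans h2)
      · intro h D hD
        obtain ⟨R, hR, rfl⟩ := Finset.mem_map.1 hD
        show conjS (ι t) (mapO _ hinj R) = mapO _ hinj R
        rw [h1, h R hR]
    ext x
    rw [Subgroup.mem_inf, ← hr]
    constructor
    · rintro ⟨⟨t, rfl⟩, h2⟩
      exact ⟨t, (key t).1 h2, rfl⟩
    · rintro ⟨t, ht, rfl⟩
      exact ⟨⟨t, rfl⟩, (key t).2 ht⟩
  have hbot : (⊥ : Subgroup Γ) = mapO _ hinj ⊥ := by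
    rw [mapO_apply, Subgroup.map_bot]
  unfold tsum
  rw [hps, hbot, sum_chainsOn_map]
  apply Finset.sum_congr rfl
  intro v _
  rw [Finset.card_map, hst]

end Pool.Agent.Helper79_WRA.H75
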