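import Pool.Agent.Helper75_WRA.Twist
import Pool.Agent.Helper75_WRA.Trans

/-!
WRA, module LAMBDA: the stabiliser of a chain of `ℓ`-subgroups of the top group.
-/

open scoped BigOperators

noncomputable section

namespace Pool.Agent.Helper79_WRA.H75

open Pool.Agent.Helper51_AWC

section

variable {G Ω L : Type} [Group G] [Group L] [MulAction L Ω]

/-- the subgroup of the top group stabilising the chain -/
def Kg (c : Finset (Subgroup (Wreath G Ω L))) : Subgroup L :=
  (stab c).comap (Wreath.top : L →* Wreath G Ω L)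

/-- the subgroup of the top group given by `P` -/
def Pl (P : Subgroup (Wreath G Ω L)) : Subgroup L := P.comap (Wreath.top : L →* Wreath G Ω L)

/-- the orbits -/
abbrev Dl (P : Subgroup (Wreath G Ω L)) : Type := Quotient (MulAction.orbitRel (Pl P) Ω)

theorem conj_mem_Pl {c : Finset (Subgroup (Wreath G Ω L))} {P : Subgroup (Wreath G Ω L)}
    (hP : P ∈ c) {k l : L} (hk : k ∈ Kg c) (hl : l ∈ Pl P) : k * l * k⁻¹ ∈ Pl P := by
  have h1 : conjS (Wreath.top k) P = P := mem_stab.1 hk P hP
  show Wreath.top (k * l * k⁻¹) ∈ P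
  rw [← h1, mem_conjS]
  have e : (Wreath.top k : Wreath G Ω L)⁻¹ * Wreath.top (k * l * k⁻¹) * Wreath.top k =
      Wreath.top l := by
    rw [map_mul, map_mul, map_inv]; group
  rw [e]
  exact hl

theorem smul_rel {c : Finset (Subgroup (Wreath G Ω L))} {P : Subgroup (Wreath G Ω L)}
    (hP : P ∈ c) (k : Kg c) {i j : Ω} (h : (MulAction.orbitRel (Pl P) Ω) i j) :
    (MulAction.orbitRel (Pl P) Ω) ((k : L) • i) ((k : L) • j) := by
  rw [MulAction.orbitRel_apply, MulAction.mem_orbit_iff] at h ⊢
  obtain ⟨⟨l, hl⟩, rfl⟩ := h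
  refine ⟨⟨k * l * (k : L)⁻¹, conj_mem_Pl hP k.2 hl⟩, ?_⟩
  show ((k : L) * l * (k : L)⁻¹) • (k : L) • j = (k : L) • l • j
  rw [mul_smul, mul_smul, inv_smul_smul]

/-- the action on the orbits -/
@[reducible] def act {c : Finset (Subgroup (Wreath G Ω L))} {P : Subgroup (Wreath G Ω L)}
    (hP : P ∈ c) : MulAction (Kg c) (Dl P) where
  smul k := Quotient.map (fun i => (k : L) • i) (fun _ _ h => smul_rel hP k h)
  one_smul := by
    intro x
    induction x using Quotient.inductionOn with
    | h i =>
      show Quotient.mk _ (((1 : Kg c) : L) • i) = Quotient.mk _ i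
      rw [Subgroup.coe_one, one_smul]
  mul_smul := by
    intro k k' x
    induction x using Quotient.inductionOn with
    | h i =>
      show Quotient.mk _ (((k * k' : Kg c) : L) • i) = Quotient.mk _ ((k : L) • (k' : L) • i)
      rw [Subgroup.coe_mul, mul_smul]

theorem base_top_f (u : Ω → G) (l : L) (j : Ω) :
    (Wreath.base u * Wreath.top l * (Wreath.base u)⁻¹ : Wreath G Ω L).f j =
      u j * (u (l⁻¹ • j))⁻¹ := by
  rw [base_conj_f, Wreath.top_f, Wreath.top_s, mul_one]

theorem conj_id_of_comm {A : Type} [Group A] {b : A} {D : Subgroup A}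
    (h : ∀ d ∈ D, b * d * b⁻¹ = d) : conjS b D = D := by
  ext x
  rw [mem_conjS]
  constructor
  · intro hx
    have := h _ hx
    have e : b * (b⁻¹ * x * b) * b⁻¹ = x := by group
    rw [e] at this
    rw [this]; exact hx
  · intro hx
    have h1 := h x hx
    have e : b⁻¹ * x * b = x := by
      conv_lhs => rw [← h1]
      group
    rw [e]; exact hx

/-- a function that is invariant under `Pl P` factors through the orbits -/
theorem factor {P : Subgroup (Wreath G Ω L)} {u : Ω → G} (h : ∀ l ∈ Pl P, ∀ j, u (l • j) = u j) :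
    ∃ f : Dl P → G, ∀ i, f (Quotient.mk _ i) = u i := by
  refine ⟨Quotient.lift u ?_, fun i => rfl⟩
  intro i j hij
  have h' : (MulAction.orbitRel (Pl P) Ω) i j := hij
  rw [MulAction.orbitRel_apply, MulAction.mem_orbit_iff] at h'
  obtain ⟨⟨l, hl⟩, rfl⟩ := h'
  exact h l hl j

theorem const_of {P : Subgroup (Wreath G Ω L)} (f : Dl P → G) {l : L} (hl : l ∈ Pl P) (j : Ω) :
    f (Quotient.mk _ (l • j)) = f (Quotient.mk _ j) := by
  congr 1
  apply Quotient.sound
  show (MulAction.orbitRel (Pl P) Ω) (l • j) j
  rw [MulAction.orbitRel_apply, MulAction.mem_orbit_iff]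
  exact ⟨⟨l, hl⟩, rfl⟩

end

/-- LAMBDA -/
theorem lambda : LambdaStmt := by
  classical
  intro ℓ _ G Ω L _ _ _ _ _ _ c hp hne hch htop
  obtain ⟨P, hPc, hPmax⟩ := exists_greatest hch hne
  have hPp := hp P hPc
  letI := act hPc
  let q : Ω → Dl P := Quotient.mk _
  have hq : ∀ (k : Kg c) (i : Ω), q (((Kg c).subtype k) • i) = k • q i := fun k i => rfl
  have hqs : Function.Surjective q := Quotient.mk_surjective
  let ι : Wreath G (Dl P) (Kg c) →* Wreath G Ω L :=
    { toFun := fun x => ⟨fun i => x.f (q i), (Kg c).subtype x.s⟩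
      map_one' := by
        apply Wreath.ext
        · rfl
        · exact map_one _
      map_mul' := by
        intro x y
        apply Wreath.ext
        · funext i
          show x.f (q i) * y.f (x.s⁻¹ • q i) =
            x.f (q i) * y.f (q (((Kg c).subtype x.s)⁻¹ • i))
          rw [← map_inv, hq]
        · show (Kg c).subtype (x.s * y.s) = (Kg c).subtype x.s * (Kg c).subtype y.s
          rw [map_mul] }
  have hι : ∀ x, ι x = ⟨fun i => x.f (q i), (Kg c).subtype x.s⟩ := fun x => rfl
  -- elements of `P` and `Pl`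
  have hPt : ∀ D ∈ c, ∀ d ∈ D, ∃ l ∈ Pl P, Wreath.top l = d := by
    intro D hD d hd
    obtain ⟨l, rfl⟩ := htop D hD hd
    exact ⟨l, hPmax D hD hd, rfl⟩
  -- `base u` with `u` constant on the orbits commutes with everything
  have hcomm : ∀ f : Dl P → G, ∀ D ∈ c, ∀ d ∈ D,
      (Wreath.base (fun i => f (q i)) * d * (Wreath.base (fun i => f (q i)))⁻¹ :
        Wreath G Ω L) = d := by
    intro f D hD d hd
    obtain ⟨l, hl, rfl⟩ := hPt D hD d hd
    apply Wreath.ext
    · funext j
      rw [base_top_f, Wreath.top_f]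
      have := const_of f ((Pl P).inv_mem hl) j
      show f (q j) * (f (q (l⁻¹ • j)))⁻¹ = 1
      rw [show f (q (l⁻¹ • j)) = f (q j) from this, mul_inv_cancel]
    · rw [Wreath.conj_s, Wreath.base_s, one_mul, inv_one, mul_one]
  -- invariance of `u`
  have hinv : ∀ u : Ω → G, (∀ l ∈ Pl P, ∀ j, (Wreath.base u * Wreath.top l *
      (Wreath.base u)⁻¹ : Wreath G Ω L).f j = 1) → ∀ l ∈ Pl P, ∀ j, u (l • j) = u j := by
    intro u h l hl j
    have h1 := h l hl (l • j)
    rw [base_top_f, inv_smul_smul] at h1
    exact mul_inv_eq_one.1 h1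
  refine ⟨Dl P, Kg c, Fintype.ofFinite _, inferInstance, inferInstance, act hPc, q,
    (Kg c).subtype, ι, hqs, Subgroup.subtype_injective _, ?_, hq, hι, ?_, ?_, ?_⟩
  · intro x y hxy
    rw [hι, hι] at hxy
    have h1 := congrArg Wreath.f hxy
    have h2 := congrArg Wreath.s hxy
    apply Wreath.ext
    · funext j
      obtain ⟨i, rfl⟩ := hqs j
      exact congrFun h1 i
    · exact Subgroup.subtype_injective _ h2
  · intro j
    obtain ⟨i, rfl⟩ := hqs j
    have hPlp : IsPGroup ℓ (Pl P) := hPp.comap_of_injective _ Wreath.top_injective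
    obtain ⟨n, hn⟩ := hPlp.card_orbit i
    refine ⟨n, ?_⟩
    rw [← hn]
    apply Nat.card_congr
    apply Equiv.subtypeEquivRight
    intro i'
    show Quotient.mk _ i' = Quotient.mk _ i ↔ i' ∈ MulAction.orbit (Pl P) i
    rw [← MulAction.orbitRel_apply]
    exact Quotient.eq
  · apply le_antisymm
    · rintro _ ⟨x, rfl⟩
      rw [mem_stab]
      intro D hD
      have e : ι x = Wreath.base (fun i => x.f (q i)) * Wreath.top ((Kg c).subtype x.s) := by
        rw [hι]
        apply Wreath.ext
        · funext i
          rw [Wreath.mul_f, Wreath.base_f, Wreath.top_f, mul_one]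
        · rw [Wreath.mul_s, Wreath.base_s, Wreath.top_s, one_mul]
      rw [e, ← conjS_conjS]
      have h1 : conjS (Wreath.top ((Kg c).subtype x.s)) D = D := mem_stab.1 x.s.2 D hD
      rw [h1]
      exact conj_id_of_comm (hcomm x.f D hD)
    · intro x hx
      rw [mem_stab] at hx
      -- the component in the top group
      have hxs : x.s ∈ Kg c := by
        show Wreath.top x.s ∈ stab c
        rw [mem_stab]
        intro D hD
        have hD1 : (D.map (Wreath.proj : Wreath G Ω L →* L)).map
            (Wreath.top : L →* Wreath G Ω L) = D := by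
          ext y
          constructor
          · rintro ⟨_, ⟨d, hd, rfl⟩, rfl⟩
            obtain ⟨l, rfl⟩ := htop D hD hd
            exact hd
          · intro hd
            obtain ⟨l, rfl⟩ := htop D hD hd
            exact ⟨l, ⟨_, hd, rfl⟩, rfl⟩
        have h2 : conjS x.s (D.map (Wreath.proj : Wreath G Ω L →* L)) =
            D.map (Wreath.proj : Wreath G Ω L →* L) := by
          have h3 := conjS_map_hom (Wreath.proj : Wreath G Ω L →* L) x D
          rw [hx D hD, Wreath.proj_apply] at h3
          exact h3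
        conv_lhs => rw [← hD1]
        rw [conjS_map_hom, h2, hD1]
      have hb : ∀ D ∈ c, conjS (Wreath.base x.f : Wreath G Ω L) D = D := by
        intro D hD
        have e : (Wreath.base x.f : Wreath G Ω L) = x * (Wreath.top x.s)⁻¹ := by
          rw [← map_inv]
          apply Wreath.ext
          · funext i
            rw [Wreath.mul_f, Wreath.base_f, Wreath.top_f, mul_one]
          · rw [Wreath.mul_s, Wreath.base_s, Wreath.top_s, mul_inv_cancel]
        have h1 : conjS (Wreath.top x.s : Wreath G Ω L)⁻¹ D = D := by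
          have : (Wreath.top x.s : Wreath G Ω L)⁻¹ ∈ stab c := (stab c).inv_mem hxs
          exact mem_stab.1 this D hD
        rw [e, ← conjS_conjS, h1, hx D hD]
      have hu : ∀ l ∈ Pl P, ∀ j, x.f (l • j) = x.f j := by
        apply hinv
        intro l hl j
        have h1 : (Wreath.base x.f * Wreath.top l * (Wreath.base x.f)⁻¹ : Wreath G Ω L) ∈ P := by
          rw [← hb P hPc, mem_conjS]
          have e : (Wreath.base x.f : Wreath G Ω L)⁻¹ * (Wreath.base x.f * Wreath.top l *
            (Wreath.base x.f)⁻¹) * Wreath.base x.f = Wreath.top l := by group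
          rw [e]; exact hl
        exact Wreath.mem_top_range.1 (htop P hPc h1) j
      obtain ⟨f, hf⟩ := factor hu
      refine ⟨⟨f, ⟨x.s, hxs⟩⟩, ?_⟩
      rw [hι]
      apply Wreath.ext
      · funext i
        exact hf i
      · rfl
  · apply le_antisymm
    · intro x hx
      unfold cent at hx
      rw [Subgroup.mem_inf] at hx
      obtain ⟨⟨u, rfl⟩, hx2⟩ := hx
      simp only [Subgroup.mem_iInf] at hx2
      have hu : ∀ l ∈ Pl P, ∀ j, u (l • j) = u j := by
        apply hinv
        intro l hl j
        have h1 := Subgroup.mem_centralizer_iff.1 (hx2 P hPc) (Wreath.top l) hl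
        have h2 : (Wreath.base u * Wreath.top l * (Wreath.base u)⁻¹ : Wreath G Ω L) =
            Wreath.top l := by
          rw [← h1]; group
        rw [h2, Wreath.top_f]
      obtain ⟨f, hf⟩ := factor hu
      refine ⟨f, ?_⟩
      show ι (Wreath.base f) = Wreath.base u
      rw [hι]
      apply Wreath.ext
      · funext i
        exact hf i
      · exact map_one _
    · rintro _ ⟨f, rfl⟩
      have e : (ι.comp (Wreath.base : (Dl P → G) →* Wreath G (Dl P) (Kg c))) f =
          Wreath.base (fun i => f (q i)) := by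
        show ι (Wreath.base f) = _
        rw [hι]
        apply Wreath.ext
        · rfl
        · exact map_one _
      rw [e]
      unfold cent
      rw [Subgroup.mem_inf]
      refine ⟨⟨_, rfl⟩, ?_⟩
      simp only [Subgroup.mem_iInf]
      intro D hD
      rw [Subgroup.mem_centralizer_iff]
      intro d hd
      have h1 := hcomm f D hD d hd
      exact (mul_inv_eq_iff_eq_mul.1 h1).symm

end Pool.Agent.Helper79_WRA.H75
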