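import Pool.Agent.Helper79_WRA.Basic
import Pool.Agent.Helper79_WRA.Stmt

/-!
WRA, module BOX: only the chains of boxes matter.
-/

open scoped BigOperators

noncomputable section

namespace Pool.Agent.Helper79_WRA.H75

open Pool.Agent.Helper51_AWC

section phi

variable {G Δ K : Type} [Group G] [Group K] [MulAction K Δ]

/-- conjugation by `t` on the base group -/
def phi (t : Wreath G Δ K) : (Δ → G) →* (Δ → G) where
  toFun y := fun j => t.f j * y (t.s⁻¹ • j) * (t.f j)⁻¹
  map_one' := by funext j; simp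
  map_mul' x y := by funext j; simp [mul_assoc]

theorem phi_apply (t : Wreath G Δ K) (y : Δ → G) (j : Δ) :
    phi t y j = t.f j * y (t.s⁻¹ • j) * (t.f j)⁻¹ := rfl

theorem base_phi (t : Wreath G Δ K) (y : Δ → G) :
    Wreath.base (phi t y) = t * Wreath.base y * t⁻¹ := by
  apply Wreath.ext
  · funext j
    rw [Wreath.conj_f, Wreath.base_s, inv_one, mul_one, mul_inv_cancel, one_smul]
    rfl
  · rw [Wreath.conj_s, Wreath.base_s, Wreath.base_s, mul_one, mul_inv_cancel]

theorem conjS_base (t : Wreath G Δ K) (D : Subgroup (Δ → G)) :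
    conjS t (D.map Wreath.base) = (D.map (phi t)).map Wreath.base := by
  ext x
  constructor
  · intro hx
    rw [mem_conjS] at hx
    obtain ⟨y, hy, hyx⟩ := hx
    refine ⟨phi t y, ⟨y, hy, rfl⟩, ?_⟩
    rw [base_phi, hyx]
    group
  · rintro ⟨z, ⟨y, hy, rfl⟩, rfl⟩
    rw [mem_conjS, base_phi]
    refine ⟨y, hy, ?_⟩
    group

theorem mem_stabB {v : Finset (Subgroup (Δ → G))} {t : Wreath G Δ K} :
    t ∈ stabB K v ↔ ∀ R ∈ v, R.map (phi t) = R := by
  unfold stabB
  simp only [Subgroup.mem_iInf, mem_normalizer_iff_conjS]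
  constructor
  · intro h R hR
    have := h R hR
    rw [conjS_base] at this
    exact Subgroup.map_injective Wreath.base_injective this
  · intro h R hR
    rw [conjS_base, h R hR]

theorem map_phi_pi (t : Wreath G Δ K) (R : Δ → Subgroup G) :
    (Subgroup.pi Set.univ R).map (phi t) =
      Subgroup.pi Set.univ (fun j => conjS (t.f j) (R (t.s⁻¹ • j))) := by
  ext x
  rw [Subgroup.mem_pi]
  constructor
  · rintro ⟨y, hy, rfl⟩ j -
    rw [mem_conjS, phi_apply]
    have := (Subgroup.mem_pi _).1 hy (t.s⁻¹ • j) (Set.mem_univ _)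
    have e : (t.f j)⁻¹ * (t.f j * y (t.s⁻¹ • j) * (t.f j)⁻¹) * t.f j = y (t.s⁻¹ • j) := by group
    rw [e]
    exact this
  · intro h
    refine ⟨fun j => (t.f (t.s • j))⁻¹ * x (t.s • j) * t.f (t.s • j), ?_, ?_⟩
    · intro j _
      have := h (t.s • j) (Set.mem_univ _)
      rw [mem_conjS, inv_smul_smul] at this
      exact this
    · funext j
      rw [phi_apply, smul_inv_smul]
      group

/-- the closure operator -/
def clo (D : Subgroup (Δ → G)) : Subgroup (Δ → G) :=
  Subgroup.pi Set.univ (fun j => D.map (Pi.evalMonoidHom (fun _ : Δ => G) j))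

theorem le_clo (D : Subgroup (Δ → G)) : D ≤ clo D := by
  intro x hx j _
  exact ⟨x, hx, rfl⟩

theorem clo_mono {D E : Subgroup (Δ → G)} (h : D ≤ E) : clo D ≤ clo E := by
  intro x hx j hj
  exact Subgroup.map_mono h (hx j hj)

open Classical in
theorem map_eval_pi (R : Δ → Subgroup G) (j : Δ) :
    (Subgroup.pi Set.univ R).map (Pi.evalMonoidHom (fun _ : Δ => G) j) = R j := by
  ext x
  constructor
  · rintro ⟨y, hy, rfl⟩; exact hy j (Set.mem_univ _)
  · intro hx
    refine ⟨Pi.mulSingle j x, ?_, ?_⟩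
    · intro i _
      by_cases h : i = j
      · subst h; rw [Pi.mulSingle_eq_same]; exact hx
      · rw [Pi.mulSingle_eq_of_ne h]; exact (R i).one_mem
    · show (Pi.mulSingle j x : Δ → G) j = x
      rw [Pi.mulSingle_eq_same]

theorem clo_pi (R : Δ → Subgroup G) : clo (Subgroup.pi Set.univ R) = Subgroup.pi Set.univ R := by
  unfold clo
  congr 1
  funext j
  exact map_eval_pi R j

theorem clo_clo (D : Subgroup (Δ → G)) : clo (clo D) = clo D := clo_pi _

theorem map_phi_clo {t : Wreath G Δ K} {D : Subgroup (Δ → G)} (h : D.map (phi t) = D) :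
    (clo D).map (phi t) = clo D := by
  unfold clo
  rw [map_phi_pi]
  congr 1
  funext j
  conv_rhs => rw [← h]
  ext x
  rw [mem_conjS]
  constructor
  · rintro ⟨y, hy, hyx⟩
    refine ⟨phi t y, ⟨y, hy, rfl⟩, ?_⟩
    have hyx' : y (t.s⁻¹ • j) = (t.f j)⁻¹ * x * t.f j := hyx
    show phi t y j = x
    rw [phi_apply, hyx']
    group
  · rintro ⟨z, ⟨y, hy, rfl⟩, rfl⟩
    refine ⟨y, hy, ?_⟩
    show y (t.s⁻¹ • j) = (t.f j)⁻¹ * (t.f j * y (t.s⁻¹ • j) * (t.f j)⁻¹) * t.f j
    group

/-- boxes as subgroups -/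
def boxE (G Δ : Type) [Group G] : (Δ → Subgroup G) ↪o Subgroup (Δ → G) where
  toFun R := Subgroup.pi Set.univ R
  inj' := by
    intro R S h
    funext j
    have h' : Subgroup.pi Set.univ R = Subgroup.pi Set.univ S := h
    rw [← map_eval_pi R j, h', map_eval_pi]
  map_rel_iff' := by
    intro R S
    constructor
    · intro h j
      have h' : Subgroup.pi Set.univ R ≤ Subgroup.pi Set.univ S := h
      have := Subgroup.map_mono (f := Pi.evalMonoidHom (fun _ : Δ => G) j) h'
      rwa [map_eval_pi, map_eval_pi] at this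
    · intro h x hx j hj
      exact h j (hx j hj)

theorem boxE_apply (R : Δ → Subgroup G) : boxE G Δ R = Subgroup.pi Set.univ R := rfl

theorem boxE_bot : boxE G Δ (fun _ => ⊥) = ⊥ := by
  rw [boxE_apply, eq_bot_iff]
  intro x hx
  rw [Subgroup.mem_bot]
  funext j
  exact Subgroup.mem_bot.1 (hx j (Set.mem_univ _))

theorem isPGroup_pi [Finite Δ] {ℓ : ℕ} {R : Δ → Subgroup G} (h : ∀ j, IsPGroup ℓ (R j)) :
    IsPGroup ℓ (Subgroup.pi Set.univ R) := by
  classical
  have := Fintype.ofFinite Δ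
  rintro ⟨x, hx⟩
  choose n hn using fun j => h j ⟨x j, hx j (Set.mem_univ _)⟩
  refine ⟨∑ j, n j, ?_⟩
  apply Subtype.ext
  show x ^ ℓ ^ (∑ j, n j) = 1
  funext j
  have h1 : x j ^ ℓ ^ n j = 1 := congrArg Subtype.val (hn j)
  show x j ^ ℓ ^ (∑ j, n j) = 1
  obtain ⟨m, hm⟩ := Nat.exists_eq_add_of_le
    (Finset.single_le_sum (f := n) (fun _ _ => Nat.zero_le _) (Finset.mem_univ j))
  rw [hm, pow_add, pow_mul, h1, one_pow]

theorem stabB_box (v : Finset (Δ → Subgroup G)) :
    stabB K (v.map (boxE G Δ).toEmbedding) = boxStab K v := by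
  ext t
  rw [mem_stabB, mem_boxStab]
  constructor
  · intro h R hR j
    have h1 := h _ (Finset.mem_map_of_mem _ hR)
    have h2 : (Subgroup.pi Set.univ R).map (phi t) = Subgroup.pi Set.univ R := h1
    rw [map_phi_pi] at h2
    exact congrFun ((boxE G Δ).injective h2) j
  · intro h D hD
    obtain ⟨R, hR, rfl⟩ := Finset.mem_map.1 hD
    show (Subgroup.pi Set.univ R).map (phi t) = Subgroup.pi Set.univ R
    rw [map_phi_pi]
    congr 1
    funext j
    exact h R hR j

end phi

open Classical in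
/-- BOX -/
theorem box : BoxStmt := by
  intro ℓ _ G Δ K _ _ _ _ _ _ hcore w
  rw [sum_closure (psubIn ℓ (⊤ : Subgroup (Δ → G))) ⊥ clo]
  · have h1 : (chainsOn (psubIn ℓ (⊤ : Subgroup (Δ → G))) ⊥).filter (fun d => ∀ x ∈ d, clo x = x) =
        chainsOn ((boxes ℓ G Δ).map (boxE G Δ).toEmbedding) (boxE G Δ (fun _ => ⊥)) := by
      ext d
      rw [Finset.mem_filter, mem_chainsOn, mem_chainsOn, boxE_bot]
      constructor
      · rintro ⟨⟨l1, l2, l3⟩, l4⟩
        refine ⟨?_, l2, l3⟩
        intro D hD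
        rw [Finset.mem_map]
        refine ⟨fun j => D.map (Pi.evalMonoidHom (fun _ : Δ => G) j), ?_, l4 D hD⟩
        rw [mem_boxes]
        intro j
        rw [mem_psub, hcore]
        exact ⟨bot_le, (mem_psubIn.1 (l1 hD)).2.map _⟩
      · rintro ⟨l1, l2, l3⟩
        refine ⟨⟨?_, l2, l3⟩, ?_⟩
        · intro D hD
          obtain ⟨R, hR, rfl⟩ := Finset.mem_map.1 (l1 hD)
          rw [mem_psubIn]
          refine ⟨le_top, isPGroup_pi (fun j => (mem_psub.1 (mem_boxes.1 hR j)).2)⟩
        · intro D hD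
          obtain ⟨R, hR, rfl⟩ := Finset.mem_map.1 (l1 hD)
          exact clo_pi R
    rw [h1, sum_chainsOn_map]
    apply Finset.sum_congr rfl
    intro v _
    rw [Finset.card_map, stabB_box]
  · intro D hD
    rw [mem_psubIn] at hD ⊢
    exact ⟨le_top, isPGroup_pi (fun j => hD.2.map _)⟩
  · intro D _; exact le_clo D
  · intro D _ E _ h; exact clo_mono h
  · intro D _; exact clo_clo D
  · have := clo_pi (G := G) (Δ := Δ) (fun _ => ⊥)
    rw [← boxE_bot]
    exact this
  · intro D _; exact bot_le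
  · intro d _ D hD hDn
    have h1 : stabB K (insert (clo D) d) = stabB K d := by
      ext t
      rw [mem_stabB, mem_stabB]
      constructor
      · intro h R hR; exact h R (Finset.mem_insert_of_mem hR)
      · intro h R hR
        rcases Finset.mem_insert.1 hR with rfl | hR
        · exact map_phi_clo (h D hD)
        · exact h R hR
    rw [h1, Finset.card_insert_of_notMem hDn]
    ring

end Pool.Agent.Helper79_WRA.H75
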