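import Pool.Agent.Helper79_WRA.Basic
import Pool.Agent.Helper79_WRA.Stmt

/-!
WRA, module TWIST: a chain of `ℓ`-subgroups is conjugate into the top group, or its centraliser in
the base group has a nontrivial normal `ℓ`-subgroup.
-/

open scoped BigOperators

noncomputable section

namespace Pool.Agent.Helper79_WRA.H75

open Pool.Agent.Helper51_AWC

section

variable {G Ω L : Type} [Group G] [Group L] [MulAction L Ω]

theorem pow_fix {p : Wreath G Ω L} {i : Ω} (h : p.s • i = i) (n : ℕ) :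
    (p ^ n).s • i = i ∧ (p ^ n).f i = (p.f i) ^ n := by
  have h' : p.s⁻¹ • i = i := by
    conv_lhs => rw [← h]
    rw [inv_smul_smul]
  induction n with
  | zero => simp only [pow_zero, Wreath.one_s, one_smul, Wreath.one_f, and_self]
  | succ n ih =>
    rw [pow_succ', Wreath.mul_s, Wreath.mul_f, mul_smul, ih.1, h, h', ih.2, pow_succ']
    exact ⟨rfl, rfl⟩

/-- the group of the values at `i` of the elements of `P` fixing `i` -/
def Qgrp (P : Subgroup (Wreath G Ω L)) (i : Ω) : Subgroup G where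
  carrier := {g | ∃ p ∈ P, p.s • i = i ∧ p.f i = g}
  one_mem' := ⟨1, P.one_mem, by rw [Wreath.one_s, one_smul], rfl⟩
  mul_mem' := by
    rintro a b ⟨p, hp, hpi, rfl⟩ ⟨q, hq, hqi, rfl⟩
    have h' : p.s⁻¹ • i = i := by
      conv_lhs => rw [← hpi]
      rw [inv_smul_smul]
    refine ⟨p * q, P.mul_mem hp hq, ?_, ?_⟩
    · rw [Wreath.mul_s, mul_smul, hqi, hpi]
    · rw [Wreath.mul_f, h']
  inv_mem' := by
    rintro a ⟨p, hp, hpi, rfl⟩
    have h' : p.s⁻¹ • i = i := by
      conv_lhs => rw [← hpi]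
      rw [inv_smul_smul]
    refine ⟨p⁻¹, P.inv_mem hp, ?_, ?_⟩
    · rw [Wreath.inv_s, h']
    · rw [Wreath.inv_f, hpi]

theorem mem_Qgrp {P : Subgroup (Wreath G Ω L)} {i : Ω} {g : G} :
    g ∈ Qgrp P i ↔ ∃ p ∈ P, p.s • i = i ∧ p.f i = g := Iff.rfl

theorem Qgrp_pgroup {ℓ : ℕ} {P : Subgroup (Wreath G Ω L)} (hP : IsPGroup ℓ P) (i : Ω) :
    IsPGroup ℓ (Qgrp P i) := by
  rintro ⟨g, p, hp, hpi, rfl⟩
  obtain ⟨k, hk⟩ := hP ⟨p, hp⟩
  refine ⟨k, ?_⟩
  apply Subtype.ext
  show (p.f i) ^ ℓ ^ k = 1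
  have h1 : p ^ ℓ ^ k = 1 := congrArg Subtype.val hk
  rw [← (pow_fix hpi _).2, h1, Wreath.one_f]

/-- the values of two elements of `P` with the same effect at `i` differ by an element of `Q i` -/
theorem same_effect {P : Subgroup (Wreath G Ω L)} {i j : Ω} {p q : Wreath G Ω L} (hp : p ∈ P)
    (hq : q ∈ P) (hpi : p.s • i = j) (hqi : q.s • i = j) :
    ∃ g ∈ Qgrp P i, q.f j = p.f j * g := by
  have hpj : p.s⁻¹ • j = i := by rw [← hpi, inv_smul_smul]
  refine ⟨(p⁻¹ * q).f i, ⟨p⁻¹ * q, P.mul_mem (P.inv_mem hp) hq, ?_, rfl⟩, ?_⟩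
  · rw [Wreath.mul_s, Wreath.inv_s, mul_smul, hqi, hpj]
  · rw [Wreath.mul_f, Wreath.inv_f, Wreath.inv_s, inv_inv, hpi]
    group

theorem base_conj_f (g : Ω → G) (q : Wreath G Ω L) (j : Ω) :
    (Wreath.base g * q * (Wreath.base g)⁻¹).f j = g j * q.f j * (g (q.s⁻¹ • j))⁻¹ := by
  rw [Wreath.conj_f, Wreath.base_s, Wreath.base_f]
  simp only [inv_one, one_smul, one_mul, mul_one]

theorem conj_base_f (u : Ω → G) (q : Wreath G Ω L) (j : Ω) :
    (q * Wreath.base u * q⁻¹).f j = q.f j * u (q.s⁻¹ • j) * (q.f j)⁻¹ := by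
  rw [Wreath.conj_f, Wreath.base_s, Wreath.base_f]
  simp only [inv_one, mul_one, mul_inv_cancel, one_smul]

end

/-- TWIST -/
theorem twist : TwistStmt := by
  classical
  intro ℓ _ G Ω L _ _ _ _ _ _ c hp hne hch _
  obtain ⟨P, hPc, hPmax⟩ := exists_greatest hch hne
  have hPp := hp P hPc
  by_cases hQ : ∀ i : Ω, Qgrp P i = ⊥
  · right
    -- representatives of the orbits
    let S : Setoid Ω :=
      { r := fun i j => ∃ p ∈ P, p.s • i = j
        iseqv := by
          refine ⟨fun i => ⟨1, P.one_mem, by rw [Wreath.one_s, one_smul]⟩, ?_, ?_⟩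
          · rintro i j ⟨p, hp, rfl⟩
            exact ⟨p⁻¹, P.inv_mem hp, by rw [Wreath.inv_s, inv_smul_smul]⟩
          · rintro i j k ⟨p, hp, rfl⟩ ⟨q, hq, rfl⟩
            exact ⟨q * p, P.mul_mem hq hp, by rw [Wreath.mul_s, mul_smul]⟩ }
    let rep : Ω → Ω := fun j => (Quotient.mk S j).out
    have hrep : ∀ j, ∃ p ∈ P, p.s • rep j = j := by
      intro j
      exact Quotient.exact (s := S) (Quotient.out_eq (Quotient.mk S j))
    have hrep2 : ∀ q ∈ P, ∀ j, rep (q.s⁻¹ • j) = rep j := by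
      intro q hq j
      have : Quotient.mk S (q.s⁻¹ • j) = Quotient.mk S j :=
        Quotient.sound (s := S) ⟨q, hq, by rw [smul_inv_smul]⟩
      show (Quotient.mk S (q.s⁻¹ • j)).out = (Quotient.mk S j).out
      rw [this]
    choose t ht1 ht2 using hrep
    have hkey : ∀ q ∈ P, ∀ j, (t j).f j = q.f j * (t (q.s⁻¹ • j)).f (q.s⁻¹ • j) := by
      intro q hq j
      have h1 : (q * t (q.s⁻¹ • j)).s • rep j = j := by
        rw [Wreath.mul_s, mul_smul, ← hrep2 q hq j, ht2, smul_inv_smul]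
      obtain ⟨g, hg, hge⟩ := same_effect (P := P) (i := rep j) (j := j)
        (P.mul_mem hq (ht1 (q.s⁻¹ • j))) (ht1 j) h1 (ht2 j)
      rw [hQ, Subgroup.mem_bot] at hg
      rw [hge, hg, mul_one, Wreath.mul_f]
    refine ⟨fun j => ((t j).f j)⁻¹, ?_⟩
    intro D hD x hx
    rw [mem_conjS] at hx
    rw [Wreath.mem_top_range]
    intro j
    set g : Ω → G := fun j => ((t j).f j)⁻¹ with hg
    have hq : (Wreath.base g)⁻¹ * x * Wreath.base g ∈ P := hPmax D hD hx
    generalize hqe : (Wreath.base g)⁻¹ * x * Wreath.base g = q at hq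
    have hx2 : x = Wreath.base g * q * (Wreath.base g)⁻¹ := by rw [← hqe]; group
    rw [hx2, base_conj_f]
    simp only [hg, inv_inv]
    rw [mul_assoc, ← hkey q hq j, inv_mul_cancel]
  · left
    push Not at hQ
    obtain ⟨i, hi⟩ := hQ
    have hnt : Nontrivial (Qgrp P i) := (Subgroup.nontrivial_iff_ne_bot _).2 hi
    have hcen := (Qgrp_pgroup hPp i).center_nontrivial
    obtain ⟨⟨⟨z, hzQ⟩, hzc⟩, hz1⟩ := exists_ne (1 : Subgroup.center (Qgrp P i))
    have hzne : z ≠ 1 := by
      intro h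
      apply hz1
      apply Subtype.ext
      apply Subtype.ext
      exact h
    have hzcomm : ∀ g ∈ Qgrp P i, g * z = z * g := by
      intro g hg
      have := Subgroup.mem_center_iff.1 hzc ⟨g, hg⟩
      exact congrArg Subtype.val this
    -- the element of the base group
    let w : Ω → G := fun j =>
      if h : ∃ p ∈ P, p.s • i = j then (h.choose).f j * z * ((h.choose).f j)⁻¹ else 1
    have hw : ∀ p ∈ P, ∀ j, p.s • i = j → w j = p.f j * z * (p.f j)⁻¹ := by
      intro p hp j hj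
      have hex : ∃ p ∈ P, p.s • i = j := ⟨p, hp, hj⟩
      have e : w j = (hex.choose).f j * z * ((hex.choose).f j)⁻¹ := dif_pos hex
      obtain ⟨h1, h2⟩ := hex.choose_spec
      obtain ⟨g, hg, hge⟩ := same_effect hp h1 hj h2
      rw [e, hge]
      have h3 : p.f j * g * z * (p.f j * g)⁻¹ = p.f j * (g * z * g⁻¹) * (p.f j)⁻¹ := by group
      rw [h3, hzcomm g hg, mul_inv_cancel_right]
    have hw0 : ∀ j, (¬ ∃ p ∈ P, p.s • i = j) → w j = 1 := fun j hj => dif_neg hj
    have hwi : w i = z := by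
      have := hw 1 P.one_mem i (by rw [Wreath.one_s, one_smul])
      rw [this, Wreath.one_f, one_mul, inv_one, mul_one]
    -- it centralises `P`
    have hwP : ∀ q ∈ P, q * Wreath.base w * q⁻¹ = Wreath.base w := by
      intro q hq
      apply Wreath.ext
      · funext j
        rw [conj_base_f, Wreath.base_f]
        by_cases hj : ∃ p ∈ P, p.s • i = j
        · obtain ⟨p, hp, hpj⟩ := hj
          have h1 := hw (q⁻¹ * p) (P.mul_mem (P.inv_mem hq) hp) (q.s⁻¹ • j) (by
            rw [Wreath.mul_s, Wreath.inv_s, mul_smul, hpj])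
          rw [h1, hw p hp j hpj]
          have h2 : (q⁻¹ * p).f (q.s⁻¹ • j) = (q.f j)⁻¹ * p.f j := by
            rw [Wreath.mul_f, Wreath.inv_f, Wreath.inv_s, inv_inv, smul_inv_smul]
          rw [h2]
          group
        · rw [hw0 j hj, hw0 (q.s⁻¹ • j)]
          · group
          · rintro ⟨p, hp, hpj⟩
            exact hj ⟨q * p, P.mul_mem hq hp, by rw [Wreath.mul_s, mul_smul, hpj, smul_inv_smul]⟩
      · rw [Wreath.conj_s, Wreath.base_s, mul_one, mul_inv_cancel]
    have hwW : (Wreath.base w : Wreath G Ω L) ∈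
        cent (Wreath.base : (Ω → G) →* Wreath G Ω L).range c := by
      unfold cent
      rw [Subgroup.mem_inf]
      refine ⟨⟨w, rfl⟩, ?_⟩
      simp only [Subgroup.mem_iInf]
      intro D hD
      rw [Subgroup.mem_centralizer_iff]
      intro q hq
      have := hwP q (hPmax D hD hq)
      exact mul_inv_eq_iff_eq_mul.1 this
    -- it is central
    have hcent : ∀ x ∈ cent (Wreath.base : (Ω → G) →* Wreath G Ω L).range c,
        x * Wreath.base w = Wreath.base w * x := by
      intro x hx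
      unfold cent at hx
      rw [Subgroup.mem_inf] at hx
      obtain ⟨⟨u, rfl⟩, hx2⟩ := hx
      simp only [Subgroup.mem_iInf] at hx2
      have hu : ∀ q ∈ P, ∀ j, q.f j * u (q.s⁻¹ • j) * (q.f j)⁻¹ = u j := by
        intro q hq j
        have h1 := Subgroup.mem_centralizer_iff.1 (hx2 P hPc) q hq
        have h2 : q * Wreath.base u * q⁻¹ = Wreath.base u := mul_inv_eq_iff_eq_mul.2 h1
        rw [← conj_base_f, h2, Wreath.base_f]
      have hui : u i * z = z * u i := by
        obtain ⟨p, hp, hpi, rfl⟩ := hzQ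
        have h' : p.s⁻¹ • i = i := by
          conv_lhs => rw [← hpi]
          rw [inv_smul_smul]
        have := hu p hp i
        rw [h'] at this
        exact (mul_inv_eq_iff_eq_mul.1 this).symm
      rw [← map_mul, ← map_mul]
      congr 1
      funext j
      show u j * w j = w j * u j
      by_cases hj : ∃ p ∈ P, p.s • i = j
      · obtain ⟨p, hp, hpj⟩ := hj
        have h1 : p.s⁻¹ • j = i := by rw [← hpj, inv_smul_smul]
        have h2 := hu p hp j
        rw [h1] at h2
        rw [hw p hp j hpj, ← h2]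
        have e1 : p.f j * u i * (p.f j)⁻¹ * (p.f j * z * (p.f j)⁻¹) =
            p.f j * (u i * z) * (p.f j)⁻¹ := by group
        have e2 : p.f j * z * (p.f j)⁻¹ * (p.f j * u i * (p.f j)⁻¹) =
            p.f j * (z * u i) * (p.f j)⁻¹ := by group
        rw [e1, e2, hui]
      · rw [hw0 j hj, mul_one, one_mul]
    -- the order is a power of `ℓ`
    obtain ⟨k, hk⟩ := Qgrp_pgroup hPp i ⟨z, hzQ⟩
    have hk' : z ^ ℓ ^ k = 1 := congrArg Subtype.val hk
    have hwk : w ^ ℓ ^ k = 1 := by
      funext j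
      show w j ^ ℓ ^ k = 1
      by_cases hj : ∃ p ∈ P, p.s • i = j
      · obtain ⟨p, hp, hpj⟩ := hj
        rw [hw p hp j hpj, conj_pow, hk', mul_one, mul_inv_cancel]
      · rw [hw0 j hj, one_pow]
    set W := cent (Wreath.base : (Ω → G) →* Wreath G Ω L).range c with hW
    set ww : W := ⟨Wreath.base w, hwW⟩ with hww
    have hN : (Subgroup.zpowers ww).Normal := by
      have hc : ww ∈ Subgroup.center W := by
        rw [Subgroup.mem_center_iff]
        rintro ⟨x, hx⟩
        apply Subtype.ext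
        exact hcent x hx
      have hle : Subgroup.zpowers ww ≤ Subgroup.center W := by
        rw [Subgroup.zpowers_le]; exact hc
      exact Subgroup.Normal.mk (fun a ha g => by
        have h1 := Subgroup.mem_center_iff.1 (hle ha) g
        rw [h1, mul_inv_cancel_right]
        exact ha)
    have hpg : IsPGroup ℓ (Subgroup.zpowers ww) := by
      rintro ⟨x, n, rfl⟩
      refine ⟨k, ?_⟩
      apply Subtype.ext
      show (ww ^ n) ^ ℓ ^ k = 1
      have h1 : ww ^ ℓ ^ k = 1 := by
        apply Subtype.ext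
        show (Wreath.base w : Wreath G Ω L) ^ ℓ ^ k = 1
        rw [← map_pow, hwk, map_one]
      rw [← zpow_natCast, ← zpow_mul, mul_comm, zpow_mul, zpow_natCast, h1, one_zpow]
    obtain ⟨-, -, h3⟩ := opCore_spec ℓ W
    intro hbot
    have h4 := h3 _ hN hpg
    rw [hbot, le_bot_iff, Subgroup.zpowers_eq_bot] at h4
    apply hzne
    have h5 : (Wreath.base w : Wreath G Ω L) = 1 := congrArg Subtype.val h4
    have h6 := congrFun (congrArg Wreath.f h5) i
    rw [Wreath.base_f, hwi] at h6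
    exact h6

end Pool.Agent.Helper79_WRA.H75
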